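import Pool.Agent.W763.PB.Stm

set_option autoImplicit false

/-! PB-R2: consequences of `16 k² ≤ b`. -/

namespace Pool.Agent.W196.PB

open Pool.Agent.W763.PB

theorem geo (r : ℝ) (h0 : 0 ≤ r) (h1 : r < 1) (S : ℕ) :
    ∑ s ∈ Finset.range S, r ^ (s + 1) ≤ r / (1 - r) := by
  have h2 : (1 - r) * ∑ s ∈ Finset.range S, r ^ s = 1 - r ^ S := mul_neg_geom_sum r S
  have h3 : ∑ s ∈ Finset.range S, r ^ (s + 1) = r * ∑ s ∈ Finset.range S, r ^ s := by
    rw [Finset.mul_sum]
    apply Finset.sum_congr rfl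
    intro s _
    rw [pow_succ]; ring
  rw [h3, le_div_iff₀ (by linarith)]
  have h4 : 0 ≤ r ^ S := pow_nonneg h0 S
  calc r * (∑ s ∈ Finset.range S, r ^ s) * (1 - r)
      = r * ((1 - r) * ∑ s ∈ Finset.range S, r ^ s) := by ring
    _ = r * (1 - r ^ S) := by rw [h2]
    _ ≤ r * 1 := by
        apply mul_le_mul_of_nonneg_left _ h0
        linarith
    _ = r := mul_one r

theorem r2 : S_R2 := by
  intro k b hk hb
  have hb64 : (64 : ℝ) ≤ b := by nlinarith
  have hk0 : 0 < k := by linarith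
  have hb2 : (0 : ℝ) < (b : ℝ) - 2 := by linarith
  have hke : k ≤ (2 : ℝ) ^ (((b : ℝ) - 2) / 2) := by
    have h1 : 1 + (((b : ℝ) - 2) / 2) * 1 ≤ (1 + 1 : ℝ) ^ (((b : ℝ) - 2) / 2) :=
      one_add_mul_self_le_rpow_one_add (by norm_num) (by linarith)
    have h2 : (1 + 1 : ℝ) = 2 := by norm_num
    rw [h2] at h1
    nlinarith
  have hb0 : (0 : ℝ) < b := by linarith
  refine ⟨hb64, ?_, ?_, ?_, ?_⟩
  · calc k ^ (1 / ((b : ℝ) - 2)) ≤ ((2 : ℝ) ^ (((b : ℝ) - 2) / 2)) ^ (1 / ((b : ℝ) - 2)) :=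
          Real.rpow_le_rpow hk0.le hke (by positivity)
      _ = (2 : ℝ) ^ (1 / 2 : ℝ) := by
          rw [← Real.rpow_mul (by norm_num)]
          congr 1
          field_simp
      _ = Real.sqrt 2 := by rw [Real.sqrt_eq_rpow]
  · calc k ^ (2 / ((b : ℝ) - 2)) ≤ ((2 : ℝ) ^ (((b : ℝ) - 2) / 2)) ^ (2 / ((b : ℝ) - 2)) :=
          Real.rpow_le_rpow hk0.le hke (by positivity)
      _ = (2 : ℝ) ^ (1 : ℝ) := by
          rw [← Real.rpow_mul (by norm_num)]
          congr 1
          field_simp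
      _ = 2 := Real.rpow_one 2
  · intro S
    have hr0 : 0 ≤ 1 / (b : ℝ) := by positivity
    have hr1 : 1 / (b : ℝ) < 1 := by
      rw [div_lt_one hb0]; linarith
    rw [← Finset.mul_sum]
    have h1 := geo (1 / (b : ℝ)) hr0 hr1 S
    have h2 : (1 / (b : ℝ)) / (1 - 1 / (b : ℝ)) = 1 / ((b : ℝ) - 1) := by
      have : (b : ℝ) - 1 ≠ 0 := by linarith
      field_simp
    rw [h2] at h1
    calc k * ∑ s ∈ Finset.range S, (1 / (b : ℝ)) ^ (s + 1) ≤ k * (1 / ((b : ℝ) - 1)) :=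
          mul_le_mul_of_nonneg_left h1 hk0.le
      _ = k / ((b : ℝ) - 1) := by ring
      _ ≤ 1 / 2 := by
          rw [div_le_div_iff₀ (by linarith) (by norm_num)]
          nlinarith
  · intro S
    have hr0 : 0 ≤ 1 / (b : ℝ) := by positivity
    set q : ℝ := Real.sqrt (1 / (b : ℝ)) with hq
    have hq0 : 0 ≤ q := Real.sqrt_nonneg _
    have hqq : q ^ 2 = 1 / (b : ℝ) := Real.sq_sqrt hr0
    have hqk : q ≤ 1 / (4 * k) := by
      rw [hq]
      apply Real.sqrt_le_iff.2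
      refine ⟨by positivity, ?_⟩
      rw [div_pow, one_pow]
      apply one_div_le_one_div_of_le (by positivity)
      nlinarith
    have hk8 : 1 / (4 * k) ≤ 1 / 8 := by
      apply one_div_le_one_div_of_le (by norm_num)
      linarith
    have hq1 : q < 1 := by linarith
    have hterm : ∀ s : ℕ, Real.sqrt (2 * (1 / (b : ℝ)) ^ s * (1 / (b : ℝ))) =
        Real.sqrt 2 * q ^ (s + 1) := by
      intro s
      have h1 : 2 * (1 / (b : ℝ)) ^ s * (1 / (b : ℝ)) = 2 * (q ^ (s + 1)) ^ 2 := by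
        rw [← pow_mul, mul_comm (s + 1) 2, pow_mul, hqq, pow_succ]; ring
      rw [h1, Real.sqrt_mul (by norm_num), Real.sqrt_sq (pow_nonneg hq0 _)]
    have h1 := geo q hq0 hq1 S
    have h2 : q / (1 - q) ≤ 1 / (4 * k - 1) := by
      rw [div_le_div_iff₀ (by linarith) (by linarith)]
      have h3 : q * (4 * k) ≤ 1 := by
        have := mul_le_mul_of_nonneg_right hqk (by positivity : (0 : ℝ) ≤ 4 * k)
        rwa [div_mul_cancel₀ _ (by positivity : (4 * k : ℝ) ≠ 0)] at this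
      linarith
    have hs2 : Real.sqrt 2 ≤ 3 / 2 := by
      rw [Real.sqrt_le_iff]
      constructor <;> norm_num
    have hs0 : 0 ≤ Real.sqrt 2 := Real.sqrt_nonneg 2
    calc ∑ s ∈ Finset.range S, k * Real.sqrt (2 * (1 / (b : ℝ)) ^ s * (1 / (b : ℝ)))
        = ∑ s ∈ Finset.range S, (k * Real.sqrt 2) * q ^ (s + 1) := by
          apply Finset.sum_congr rfl
          intro s _
          rw [hterm s]; ring
      _ = (k * Real.sqrt 2) * ∑ s ∈ Finset.range S, q ^ (s + 1) := by rw [Finset.mul_sum]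
      _ ≤ (k * Real.sqrt 2) * (1 / (4 * k - 1)) :=
          mul_le_mul_of_nonneg_left (h1.trans h2) (by positivity)
      _ ≤ (k * (3 / 2)) * (1 / (4 * k - 1)) := by
          apply mul_le_mul_of_nonneg_right
          · exact mul_le_mul_of_nonneg_left hs2 hk0.le
          · apply one_div_nonneg.2; linarith
      _ = (k * (3 / 2)) / (4 * k - 1) := by ring
      _ ≤ 1 := by
          rw [div_le_one (by linarith)]
          linarith

end Pool.Agent.W196.PB
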